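import Mathlib
import Pool.Agent.Y137.SL.Defs
import Pool.Agent.Q70.SQ.Ord

/-!
# Newton polygons above Hodge polygons: definitions
-/

set_option autoImplicit false

namespace Pool.Agent.Q70.HN

open NumberField Module Pool.Agent.Y137.MV Pool.Agent.Y137.SL Pool.Agent.Q70.SQ

/-- The `p`-adic slopes of the polynomial `P`, normalised by the slope `1` of `p ^ a`: the numbers
`- log |x| / log (p ^ a)` for the roots `x` of `P` in the algebraic closure of the field of `p`-adic
numbers, with multiplicities. -/
noncomputable def slopes (p a : ℕ) [Fact p.Prime] (P : Polynomial ℚ) : Multiset ℝ :=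
  (P.aroots (PadicAlgCl p)).map fun x => -Real.log ‖x‖ / (a * Real.log p)

/-- The multiset containing each number `i ≤ w` with the multiplicity `h i` (the Hodge number
`h ^ (i, w - i)`). -/
noncomputable def hodgeSlopes (w : ℕ) (h : ℕ → ℕ) : Multiset ℝ :=
  ∑ i ∈ Finset.range (w + 1), Multiset.replicate (h i) (i : ℝ)

/-- The sum of `h i * (2 i - w) ^ 2` for `i ≤ w`. -/
def spread (w : ℕ) (h : ℕ → ℕ) : ℤ :=
  ∑ i ∈ Finset.range (w + 1), (h i : ℤ) * (2 * i - w) ^ 2

/-- The polygon with the slopes `s` lies above the polygon with the slopes `t`, and both have the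
same end point: if `x 0 ≤ x 1 ≤ ⋯ ≤ x (m - 1)` and `y 0 ≤ y 1 ≤ ⋯ ≤ y (m - 1)` are the elements of
`s` and `t` in increasing order, then `y 0 + ⋯ + y (k - 1) ≤ x 0 + ⋯ + x (k - 1)` for all `k ≤ m`, with
equality for `k = m`. -/
def LiesAbove (s t : Multiset ℝ) : Prop :=
  ∃ (m : ℕ) (x y : ℕ → ℝ), (∀ i j, i ≤ j → j < m → x i ≤ x j) ∧ (∀ i j, i ≤ j → j < m → y i ≤ y j) ∧
    s = (Multiset.range m).map x ∧ t = (Multiset.range m).map y ∧
    (∀ k ≤ m, ∑ i ∈ Finset.range k, y i ≤ ∑ i ∈ Finset.range k, x i) ∧
    ∑ i ∈ Finset.range m, y i = ∑ i ∈ Finset.range m, x i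

/-- The complex roots of `f` have weight `w` for `q = p ^ a` and its Newton polygon lies above the
Hodge polygon with the Hodge numbers `h`. (This is true for the characteristic polynomial of
Frobenius on `H ^ w (Z)`, with the Hodge numbers of `Z`: Deligne, Mazur, Ogus.) -/
structure HasHodgeNumbers (p a w : ℕ) [Fact p.Prime] (h : ℕ → ℕ) (f : Polynomial ℚ) : Prop where
  ne_zero : f ≠ 0
  weight : ∀ α : ℂ, Polynomial.aeval α f = 0 → ‖α‖ ^ 2 = ((p : ℝ) ^ a) ^ w
  above : LiesAbove (slopes p a f) (hodgeSlopes w h)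

/-- The Hodge numbers `h` of weight `w` are small compared with the degree `D`: the sum of
`h i * (2 i - w) ^ 2` is less than `D`, or less than `2 D` and `w` is even. -/
def SmallHodge (w : ℕ) (h : ℕ → ℕ) (D : ℕ) : Prop :=
  spread w h < D ∨ (Even w ∧ spread w h < 2 * D)

/-- The Hodge numbers `h` of weight `w` are small compared with the slopes of the Weil number `π i`:
the sum of the squared deviations of the Hodge slopes is less than that of the slopes of `π i`, or the
weight is even and it is less than the sum of `[F i : ℚ]` times the mean square deviations of `π i`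
and of `π i'`, for all `i'`. -/
def SmallFor {ι : Type*} {F : ι → Type*} [∀ i, Field (F i)] [∀ i, NumberField (F i)]
    (p a : ℕ) [Fact p.Prime] (π : ∀ i, F i) (w : ℕ) (h : ℕ → ℕ) (i : ι) : Prop :=
  (a * Real.log p) ^ 2 * spread w h / 4 < finrank ℚ (F i) * weilDeviation p a (π i) ∨
    (Even w ∧ ∀ i', (a * Real.log p) ^ 2 * spread w h / 4 <
      finrank ℚ (F i) * (weilDeviation p a (π i) + weilDeviation p a (π i')))

end Pool.Agent.Q70.HN
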