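import Mathlib
import Pool.Agent.Y137.MV.Odd
import Pool.Agent.Y1.CT.UnrelDefs
import Pool.Agent.Q70.HN.Defs
import Pool.Agent.Q70.SQ.Pair

/-!
# Numbers of small degree are unrelated to a CM field with irreducible odd functions
-/

set_option autoImplicit false

namespace Pool.Agent.Q70.HN

open NumberField Module Pool.Agent.Y137.MV Pool.Agent.Y1.CT

/-- The action of the automorphisms of `ℂ` on the complex embeddings. -/
@[reducible] def embAction (F : Type) [Field F] : MulAction (RingAut ℂ) (F →+* ℂ) where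
  smul τ φ := ((τ : ℂ ≃+* ℂ) : ℂ →+* ℂ).comp φ
  one_smul φ := by
    ext x
    rfl
  mul_smul σ τ φ := by
    ext x
    rfl

theorem unrelatedTo_of_degree {F : Type} [Field F] [NumberField F] [IsCMField F]
    (hirr : OddIrreducible F) {α : ℂ} (hα : IsIntegral ℚ α)
    (hd : (minpoly ℚ α).natDegree < finrank ℚ F) : UnrelatedTo F α := by
  classical
  let _ : MulAction (RingAut ℂ) (F →+* ℂ) := embAction F
  have horb : (MulAction.orbit (RingAut ℂ) α) ⊆ (minpoly ℚ α).rootSet ℂ := by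
    rintro _ ⟨g, rfl⟩
    rw [Polynomial.mem_rootSet]
    refine ⟨minpoly.ne_zero hα, ?_⟩
    have h3 := Polynomial.aeval_algHom_apply
      (RingHom.equivRatAlgHom ℂ ℂ ((g : ℂ ≃+* ℂ) : ℂ →+* ℂ)) α (minpoly ℚ α)
    rw [minpoly.aeval, map_zero] at h3
    exact h3
  have hfin : Finite (MulAction.orbit (RingAut ℂ) α) :=
    ((Polynomial.rootSet_finite _ _).subset horb).to_subtype
  have hcard : Nat.card (MulAction.orbit (RingAut ℂ) α) < Fintype.card (F →+* ℂ) := by
    rw [NumberField.Embeddings.card]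
    refine lt_of_le_of_lt ?_ hd
    have h3 : Nat.card (MulAction.orbit (RingAut ℂ) α) ≤ Nat.card ((minpoly ℚ α).rootSet ℂ) :=
      Nat.card_mono (Polynomial.rootSet_finite _ _) horb
    refine h3.trans ?_
    rw [Nat.card_coe_set_eq]
    exact Polynomial.ncard_rootSet_le _ _
  have hinv : ∀ φ : F →+* ℂ, ComplexEmbedding.conjugate (ComplexEmbedding.conjugate φ) = φ :=
    fun φ => star_star φ
  have hne : ∀ φ : F →+* ℂ, ComplexEmbedding.conjugate φ ≠ φ := fun φ h =>
    IsTotallyComplex.complexEmbedding_not_isReal φ h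
  have hG : ∀ (g : RingAut ℂ) (φ : F →+* ℂ),
      g • ComplexEmbedding.conjugate φ = ComplexEmbedding.conjugate (g • φ) := fun g φ =>
    Pool.Agent.TH170.QC.comp_conj (g : ℂ ≃+* ℂ) φ
  have hc : ∀ φ : F →+* ℂ, (starRingAut : RingAut ℂ) • φ = ComplexEmbedding.conjugate φ := by
    intro φ
    rfl
  have hirr' : IrrOdd (RingAut ℂ) (ComplexEmbedding.conjugate (K := F)) := by
    intro W hW hWG
    exact hirr W hW hWG
  intro n hodd hn
  funext φ
  obtain ⟨g, hg1, hg2⟩ := core_deg (ComplexEmbedding.conjugate (K := F)) hinv hne hG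
    (starRingAut : RingAut ℂ) hc hirr' α hcard φ
  have h1 := hn (g : ℂ ≃+* ℂ) ⟨1, one_pos, by rw [pow_one]; exact hg1⟩ φ
  have h2 : ((g : ℂ ≃+* ℂ) : ℂ →+* ℂ).comp φ = ComplexEmbedding.conjugate φ := hg2
  rw [h2, hodd] at h1
  change n φ = 0
  linarith

end Pool.Agent.Q70.HN
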