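import Mathlib
import Pool.Agent.Q70.HN.Defs

/-!
# The sum of the squared deviations of the slopes is bounded by the Hodge numbers
-/

set_option autoImplicit false

namespace Pool.Agent.Q70.HN

open Finset

/-- Abel summation. -/
theorem abel (x d : ℕ → ℝ) (m : ℕ) (hx : ∀ i j, i ≤ j → j < m → x i ≤ x j)
    (hd : ∀ k ≤ m, ∑ i ∈ range k, d i ≤ 0) (hm : ∑ i ∈ range m, d i = 0) :
    0 ≤ ∑ i ∈ range m, d i * x i := by
  have key : ∀ k, k + 1 ≤ m → (∑ i ∈ range (k + 1), d i) * x k ≤ ∑ i ∈ range (k + 1), d i * x i := by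
    intro k
    induction k with
    | zero =>
      intro _
      simp
    | succ k ih =>
      intro hk
      have h1 := ih (by omega)
      rw [sum_range_succ, sum_range_succ (fun i => d i * x i)]
      have h2 : (∑ i ∈ range (k + 1), d i) * x (k + 1) ≤ (∑ i ∈ range (k + 1), d i) * x k :=
        mul_le_mul_of_nonpos_left (hx k (k + 1) (by omega) (by omega)) (hd (k + 1) (by omega))
      nlinarith
  rcases Nat.eq_zero_or_pos m with h0 | h0
  · subst h0
    simp
  · obtain ⟨k, rfl⟩ : ∃ k, m = k + 1 := ⟨m - 1, by omega⟩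
    have h1 := key k le_rfl
    rw [hm, zero_mul] at h1
    exact h1

/-- The polygon which lies above has the smaller sum of squares. -/
theorem sq_le {s t : Multiset ℝ} (h : LiesAbove s t) (c : ℝ) :
    (s.map fun x => (x - c) ^ 2).sum ≤ (t.map fun x => (x - c) ^ 2).sum := by
  obtain ⟨m, x, y, hx, hy, rfl, rfl, hle, heq⟩ := h
  rw [Multiset.map_map, Multiset.map_map]
  change ∑ i ∈ range m, (x i - c) ^ 2 ≤ ∑ i ∈ range m, (y i - c) ^ 2
  have h1 := abel x (fun i => y i - x i) m hx (fun k hk => by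
    rw [sum_sub_distrib]
    have := hle k hk
    linarith) (by rw [sum_sub_distrib, heq, sub_self])
  have h2 : ∑ i ∈ range m, (y i - c) ^ 2 = ∑ i ∈ range m, (x i - c) ^ 2 +
      ∑ i ∈ range m, (y i - x i) ^ 2 + 2 * ∑ i ∈ range m, (y i - x i) * x i -
      2 * c * ∑ i ∈ range m, (y i - x i) := by
    rw [mul_sum, mul_sum, ← sum_add_distrib, ← sum_add_distrib, ← sum_sub_distrib]
    exact sum_congr rfl fun i _ => by ring
  have h3 : ∑ i ∈ range m, (y i - x i) = 0 := by rw [sum_sub_distrib, heq, sub_self]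
  have h4 : 0 ≤ ∑ i ∈ range m, (y i - x i) ^ 2 := sum_nonneg fun i _ => sq_nonneg _
  rw [h2, h3]
  linarith

theorem hodge_sq (w : ℕ) (h : ℕ → ℕ) :
    ((hodgeSlopes w h).map fun x : ℝ => (x - (w : ℝ) / 2) ^ 2).sum = (spread w h : ℝ) / 4 := by
  have h1 : ∀ S : Finset ℕ, (((∑ i ∈ S, Multiset.replicate (h i) (i : ℝ)) : Multiset ℝ).map
      fun x : ℝ => (x - (w : ℝ) / 2) ^ 2).sum = ∑ i ∈ S, (h i : ℝ) * ((i : ℝ) - w / 2) ^ 2 := by
    intro S
    induction S using Finset.induction_on with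
    | empty => simp
    | insert i S hi ih =>
      rw [sum_insert hi, sum_insert hi, Multiset.map_add, Multiset.sum_add, ih,
        Multiset.map_replicate, Multiset.sum_replicate, nsmul_eq_mul]
  rw [hodgeSlopes, h1, spread]
  push_cast
  rw [sum_div]
  refine sum_congr rfl fun i _ => ?_
  ring

end Pool.Agent.Q70.HN
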