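import Mathlib
import Pool.Agent.Q70.HN.Kar
import Pool.Agent.Q70.HN.Deg

/-!
# Eigenvalues of varieties with small Hodge numbers are good numbers
-/

set_option autoImplicit false

namespace Pool.Agent.Q70.HN

open NumberField Module Polynomial Pool.Agent.Y137.MV Pool.Agent.Y137.SL Pool.Agent.Y1.CT
  Pool.Agent.Q70.SQ

theorem sum_map_le {α : Type*} {s t : Multiset α} (h : s ≤ t) (g : α → ℝ) (hg : ∀ x, 0 ≤ g x) :
    (s.map g).sum ≤ (t.map g).sum := by
  obtain ⟨u, rfl⟩ := Multiset.le_iff_exists_add.1 h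
  rw [Multiset.map_add, Multiset.sum_add]
  have h1 : 0 ≤ (u.map g).sum := Multiset.sum_nonneg (by
    intro x hx
    obtain ⟨y, -, rfl⟩ := Multiset.mem_map.1 hx
    exact hg y)
  linarith

variable {p a w : ℕ} [Fact p.Prime] {h : ℕ → ℕ} {f : ℚ[X]}

/-- The sum of the squared deviations of the slopes of the conjugates of an eigenvalue is bounded by
the Hodge numbers. -/
theorem deviation_le (ha : 0 < a) (hf : HasHodgeNumbers p a w h f) {α : ℂ} (hα : aeval α f = 0) :
    ((minpoly ℚ α).natDegree : ℝ) * deviation p α ≤ (a * Real.log p) ^ 2 * spread w h / 4 := by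
  have hp1 : (1 : ℝ) < p := by exact_mod_cast (Fact.out : p.Prime).one_lt
  have hlogp : 0 < (a : ℝ) * Real.log p := mul_pos (Nat.cast_pos.2 ha) (Real.log_pos hp1)
  have hint : IsIntegral ℚ α := IsAlgebraic.isIntegral ⟨f, hf.ne_zero, hα⟩
  have hdvd : minpoly ℚ α ∣ f := minpoly.dvd ℚ α hα
  have hlogα : Real.log ‖α‖ = w / 2 * (a * Real.log p) := by
    have h1 := congrArg Real.log (hf.weight α hα)
    rw [Real.log_pow, Real.log_pow, Real.log_pow] at h1
    push_cast at h1
    linarith
  have hdeg : ((minpoly ℚ α).natDegree : ℝ) ≠ 0 := by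
    exact_mod_cast (minpoly.natDegree_pos hint).ne'
  have hle : (minpoly ℚ α).aroots (PadicAlgCl p) ≤ f.aroots (PadicAlgCl p) :=
    Polynomial.roots.le_of_dvd ((Polynomial.map_ne_zero_iff (algebraMap ℚ _).injective).2 hf.ne_zero)
      (Polynomial.map_dvd _ hdvd)
  have h1 : (f.aroots (PadicAlgCl p)).map (fun x => (Real.log ‖x‖ + Real.log ‖α‖) ^ 2) =
      ((slopes p a f).map fun s => ((a : ℝ) * Real.log p) ^ 2 * (s - w / 2) ^ 2) := by
    rw [slopes, Multiset.map_map]
    refine Multiset.map_congr rfl fun x _ => ?_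
    rw [Function.comp_apply, hlogα]
    have h0 : (a : ℝ) * Real.log p ≠ 0 := hlogp.ne'
    generalize (a : ℝ) * Real.log p = L at h0
    generalize Real.log ‖x‖ = y
    field_simp
    ring
  rw [deviation, meanSquare, mul_div_cancel₀ _ hdeg]
  refine (sum_map_le hle _ fun x => sq_nonneg _).trans ?_
  rw [h1, Multiset.sum_map_mul_left]
  have h2 := sq_le hf.above ((w : ℝ) / 2)
  rw [hodge_sq] at h2
  have h3 : 0 ≤ ((a : ℝ) * Real.log p) ^ 2 := sq_nonneg _
  nlinarith

variable {I : Type} [Fintype I] {F : I → Type} [∀ i, Field (F i)] [∀ i, NumberField (F i)]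
  [∀ i, IsCMField (F i)] {π : ∀ i, F i}

/-- **Eigenvalues on the cohomology of varieties with small Hodge numbers are good.** -/
theorem good_of_hodge (ha : 0 < a) (hf : HasHodgeNumbers p a w h f) {α : ℂ} (hα : aeval α f = 0)
    (i : I) (hirr : OddIrreducible (F i)) (hi : SmallFor p a π w h i) :
    UnrelatedTo (F i) α ∨ SmallDeviation p a π α i := by
  have hint : IsIntegral ℚ α := IsAlgebraic.isIntegral ⟨f, hf.ne_zero, hα⟩
  rcases lt_or_ge (minpoly ℚ α).natDegree (finrank ℚ (F i)) with hd | hd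
  · exact Or.inl (unrelatedTo_of_degree hirr hint hd)
  · right
    have h1 := deviation_le ha hf hα
    have h0 : 0 < (finrank ℚ (F i) : ℝ) := Nat.cast_pos.2 finrank_pos
    have hdR : (finrank ℚ (F i) : ℝ) ≤ (minpoly ℚ α).natDegree := by exact_mod_cast hd
    have hdev : 0 ≤ deviation p α := by
      rw [deviation, meanSquare]
      refine div_nonneg (Multiset.sum_nonneg ?_) (Nat.cast_nonneg _)
      intro x hx
      obtain ⟨y, -, rfl⟩ := Multiset.mem_map.1 hx
      exact sq_nonneg _
    have h2 : (finrank ℚ (F i) : ℝ) * deviation p α ≤ (a * Real.log p) ^ 2 * spread w h / 4 :=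
      (mul_le_mul_of_nonneg_right hdR hdev).trans h1
    rcases hi with h3 | ⟨⟨v, hv⟩, h3⟩
    · left
      have h4 : (finrank ℚ (F i) : ℝ) * deviation p α <
          (finrank ℚ (F i) : ℝ) * weilDeviation p a (π i) := by linarith
      exact lt_of_mul_lt_mul_left h4 h0.le
    · right
      refine ⟨⟨v, ?_⟩, fun i' => ?_⟩
      · have h4 := hf.weight α hα
        rw [hv, ← two_mul, mul_comm 2 v, pow_mul] at h4
        exact (pow_left_inj₀ (norm_nonneg _) (pow_nonneg (pow_nonneg (Nat.cast_nonneg _) _) _)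
          two_ne_zero).1 h4
      · have h4 : (finrank ℚ (F i) : ℝ) * deviation p α <
          (finrank ℚ (F i) : ℝ) * (weilDeviation p a (π i) + weilDeviation p a (π i')) := by
          have := h3 i'
          linarith
        exact lt_of_mul_lt_mul_left h4 h0.le

/-- For ordinary Weil numbers the condition on the Hodge numbers is numerical. -/
theorem smallFor_of_ordinary (ha : 0 < a) (hord : ∀ i, IsOrdinary p a (π i)) (i : I)
    (hi : SmallHodge w h (finrank ℚ (F i))) : SmallFor p a π w h i := by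
  have hp1 : (1 : ℝ) < p := by exact_mod_cast (Fact.out : p.Prime).one_lt
  have hlogp : 0 < (a : ℝ) * Real.log p := mul_pos (Nat.cast_pos.2 ha) (Real.log_pos hp1)
  have hsq : 0 < ((a : ℝ) * Real.log p) ^ 2 := pow_pos hlogp 2
  rcases hi with h1 | ⟨hw, h1⟩
  · left
    rw [weilDeviation_ordinary (hord i)]
    have h2 : (spread w h : ℝ) < (finrank ℚ (F i) : ℝ) := by exact_mod_cast h1
    nlinarith
  · right
    refine ⟨hw, fun i' => ?_⟩
    rw [weilDeviation_ordinary (hord i), weilDeviation_ordinary (hord i')]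
    have h2 : (spread w h : ℝ) < 2 * (finrank ℚ (F i) : ℝ) := by exact_mod_cast h1
    nlinarith

/-- Ordinary Weil numbers have a slope different from `1 / 2`. -/
theorem other_of_ordinary (ha : 0 < a) {F : Type} [Field F] [NumberField F] {π : F}
    (hord : IsOrdinary p a π) : HasOtherSlope p a π := by
  let τ : F →ₐ[ℚ] PadicAlgCl p := IsAlgClosed.lift
  refine ⟨(τ : F →+* PadicAlgCl p), ?_⟩
  have hmem : τ π ∈ (minpoly ℚ π).aroots (PadicAlgCl p) := by
    rw [Polynomial.mem_aroots]
    refine ⟨minpoly.ne_zero (Algebra.IsIntegral.isIntegral π), ?_⟩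
    rw [Polynomial.aeval_algHom_apply, minpoly.aeval, map_zero]
  have hq0 : 0 < ‖(p : PadicAlgCl p) ^ a‖ := Pool.Agent.H204R3.SP.norm_q_pos p a
  have hq : ‖(p : PadicAlgCl p) ^ a‖ < 1 := Pool.Agent.H204R3.SP.norm_q_lt p ha
  change ‖τ π‖ ^ 2 ≠ _
  rcases hord _ hmem with h1 | h1
  · rw [h1]
    intro h2
    rw [one_pow] at h2
    linarith
  · rw [h1]
    intro h2
    nlinarith

end Pool.Agent.Q70.HN
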