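import Mathlib
import Pool.Agent.Q70.HN.Defs
import Pool.Agent.Q70.SQ.TimesDefs

/-!
# Products of abelian varieties with varieties of small Hodge numbers over finite fields: definitions
-/

set_option autoImplicit false

namespace Pool.Agent.Q70.HN

open NumberField Module Polynomial

/-- `χ` is the product of polynomials `χ w` (the characteristic polynomials of Frobenius on `H ^ w`,
`w < N`) whose roots have weight `w` and whose Newton polygon lies above the Hodge polygon given by
Hodge numbers `h w` with the property `P w`. -/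
def HasHodgeNumbersWith (p a : ℕ) [Fact p.Prime] (P : ℕ → (ℕ → ℕ) → Prop) (χ : ℚ[X]) : Prop :=
  ∃ (N : ℕ) (h : ℕ → ℕ → ℕ) (χw : ℕ → ℚ[X]), χ = ∏ w ∈ Finset.range N, χw w ∧
    ∀ w < N, HasHodgeNumbers p a w (h w) (χw w) ∧ P w (h w)

end Pool.Agent.Q70.HN
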