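import Mathlib
import Pool.Agent.Q70.HN.Good
import Pool.Agent.Q70.HN.TimesDefs
import Pool.Agent.Q70.SQ.Times

/-!
# Products of abelian varieties with varieties of small Hodge numbers over finite fields
-/

set_option autoImplicit false

namespace Pool.Agent.Q70.HN

open CategoryTheory NumberField Module Polynomial Pool.Agent.H914 Pool.Agent.H914.VarClass
  Pool.Agent.H914.VarClass.Obj Pool.Agent.W492.BB Pool.Agent.Y137.MV Pool.Agent.Y137.SL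
  Pool.Agent.Q70.SQ

variable {p a : ℕ} [Fact p.Prime] {I : Type} [Fintype I] {F : I → Type} [∀ i, Field (F i)]
  [∀ i, NumberField (F i)] [∀ i, IsCMField (F i)] {π : ∀ i, F i}

theorem eigenvaluesIn_mono {k : Type} [Field k] {𝒱 : VarClass k}
    {C : TheoryData.{0, 0, 0} 𝒱 ℚ} {E : Type} [Field E] [CharZero E]
    (H : WeilTheoryData.{0, 0, 0} C E) {Z : 𝒱.Obj} {P P' : ℚ[X] → Prop}
    (h : ∀ χ, P χ → P' χ) (πZ : Z ⟶ Z) (hZ : EigenvaluesIn H P πZ) : EigenvaluesIn H P' πZ := by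
  obtain ⟨χ, h1, h2, h3⟩ := hZ
  exact ⟨χ, h1, h2, h _ h3⟩

theorem tateFor_mono {P P' : ℚ[X] → Prop} (h : ∀ χ, P χ → P' χ) {q : ℕ} {I : Type} {f : I → ℤ[X]}
    (hT : TateFor P' q f) : TateFor P q f := by
  intro k _ 𝒱 C _ E _ _ _ H _ A Z πA πZ hp c
  exact hT k 𝒱 C E H A Z πA πZ ⟨hp.standard, hp.abelian, eigenvaluesIn_mono H h πZ hp.eigen⟩ c

theorem homNumFor_mono {P P' : ℚ[X] → Prop} (h : ∀ χ, P χ → P' χ) {q : ℕ} {I : Type} {f : I → ℤ[X]}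
    (hT : HomNumFor P' q f) : HomNumFor P q f := by
  intro k _ 𝒱 C _ E _ _ _ H _ A Z πA πZ hp hF c
  exact hT k 𝒱 C E H A Z πA πZ ⟨hp.standard, hp.abelian, eigenvaluesIn_mono H h πZ hp.eigen⟩ hF c

theorem goodRoots_of_hodge (ha : 0 < a) (hirr : ∀ i, OddIrreducible (F i)) {χ : ℚ[X]}
    (h : HasHodgeNumbersWith p a (fun w h => ∀ i, SmallFor p a π w h i) χ) :
    GoodRoots p a π χ := by
  obtain ⟨N, hh, χw, rfl, hχ⟩ := h
  intro ρ hρ
  rw [map_prod] at hρ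
  obtain ⟨w, hw, hρw⟩ := Finset.prod_eq_zero_iff.1 hρ
  obtain ⟨h1, h2⟩ := hχ w (Finset.mem_range.1 hw)
  refine ⟨?_, fun i => good_of_hodge ha h1 hρw i (hirr i) (h2 i)⟩
  rintro rfl
  have h3 := h1.weight 0 hρw
  have hp0 : (0 : ℝ) < p := Nat.cast_pos.2 (Fact.out : p.Prime).pos
  have h4 : (0 : ℝ) < ((p : ℝ) ^ a) ^ w := pow_pos (pow_pos hp0 _) _
  rw [norm_zero] at h3
  norm_num at h3
  linarith

theorem with_of_ordinary (ha : 0 < a) (hord : ∀ i, IsOrdinary p a (π i)) {χ : ℚ[X]}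
    (h : HasHodgeNumbersWith p a (fun w h => ∀ i, SmallHodge w h (finrank ℚ (F i))) χ) :
    HasHodgeNumbersWith p a (fun w h => ∀ i, SmallFor p a π w h i) χ := by
  obtain ⟨N, hh, χw, h1, hχ⟩ := h
  exact ⟨N, hh, χw, h1, fun w hw => ⟨(hχ w hw).1, fun i =>
    smallFor_of_ordinary ha hord i ((hχ w hw).2 i)⟩⟩

end Pool.Agent.Q70.HN
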