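import Mathlib
import Pool.Agent.Q70.HN.Times
import Pool.Agent.Q70.SQ.Hodge

/-!
# The conjecture of Hodge type for products with varieties of small Hodge numbers
-/

set_option autoImplicit false

namespace Pool.Agent.Q70.HN

open Polynomial Pool.Agent.Q70.SQ

theorem hodgeTypeFor_mono {P P' : ℚ[X] → Prop} (h : ∀ χ, P χ → P' χ) {q : ℕ} {I : Type}
    {f : I → ℤ[X]} (hT : HodgeTypeFor P' q f) : HodgeTypeFor P q f := by
  intro k _ _ 𝒱 ops W _ A Z g g' hA hZ hF hB hHL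
  obtain ⟨χ, h1, h2, h3⟩ := hZ
  exact hT k 𝒱 ops W A Z g g' hA ⟨χ, h1, h2, h _ h3⟩ hF hB hHL

end Pool.Agent.Q70.HN
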